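import Pool.Agent.Helper96.MP.Defs

/-!
Basic facts on the action of `SL₂(ℤ)` on the upper half plane `UH` and change of variables.
-/

set_option autoImplicit false

namespace Pool.Agent.Helper96.MP

open Complex MeasureTheory Filter Topology
open scoped MatrixGroups

theorem unf_countable : Countable SL(2, ℤ) := by
  have h : Countable (Matrix (Fin 2) (Fin 2) ℤ) := inferInstanceAs (Countable (Fin 2 → Fin 2 → ℤ))
  exact (Subtype.val_injective (p := fun A : Matrix (Fin 2) (Fin 2) ℤ => A.det = 1)).countable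

theorem unf_det (g : SL(2, ℤ)) : (g 0 0 : ℤ) * g 1 1 - g 0 1 * g 1 0 = 1 := by
  have h := g.det_coe
  rw [Matrix.det_fin_two] at h
  exact h

theorem unf_detC (g : SL(2, ℤ)) :
    ((g 0 0 : ℤ) : ℂ) * ((g 1 1 : ℤ) : ℂ) - ((g 0 1 : ℤ) : ℂ) * ((g 1 0 : ℤ) : ℂ) = 1 := by
  have h := unf_det g
  exact_mod_cast congrArg (fun x : ℤ => (x : ℂ)) h

theorem unf_jj_ne (g : SL(2, ℤ)) {z : ℂ} (hz : z ∈ UH) : jj g z ≠ 0 := by
  intro h
  have hz' : 0 < z.im := hz
  have hd := unf_det g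
  unfold jj at h
  have him := congrArg Complex.im h
  have hre := congrArg Complex.re h
  simp at him hre
  rcases him with h0 | h0
  · rw [h0] at hre hd
    simp at hre
    rw [hre] at hd
    simp at hd
  · linarith

theorem unf_jj_im (g : SL(2, ℤ)) (z : ℂ) : (jj g z).im = (g 1 0 : ℤ) * z.im := by
  unfold jj
  simp

theorem unf_mob_eq (g : SL(2, ℤ)) (z : ℂ) :
    mob g z = (((g 0 0 : ℤ) : ℂ) * z + ((g 0 1 : ℤ) : ℂ)) / jj g z := rfl

theorem unf_im (g : SL(2, ℤ)) {z : ℂ} (hz : z ∈ UH) : (mob g z).im = z.im / ‖jj g z‖ ^ 2 := by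
  have hne := unf_jj_ne g hz
  have hd := unf_det g
  have hdR : ((g 0 0 : ℤ) : ℝ) * ((g 1 1 : ℤ) : ℝ) - ((g 0 1 : ℤ) : ℝ) * ((g 1 0 : ℤ) : ℝ) = 1 := by
    exact_mod_cast congrArg (fun x : ℤ => (x : ℝ)) hd
  have hn : ‖jj g z‖ ^ 2 = Complex.normSq (jj g z) := (Complex.normSq_eq_norm_sq _).symm
  have hn0 : Complex.normSq (jj g z) ≠ 0 := by simpa using hne
  rw [hn, unf_mob_eq, Complex.div_im]
  have hre : (jj g z).re = (g 1 0 : ℤ) * z.re + (g 1 1 : ℤ) := by unfold jj; simp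
  have him : (jj g z).im = (g 1 0 : ℤ) * z.im := unf_jj_im g z
  rw [← sub_div, eq_comm, div_left_inj' hn0, hre, him]
  simp only [Complex.add_im, Complex.mul_im, Complex.intCast_re, Complex.intCast_im, zero_mul,
    add_zero, Complex.add_re, Complex.mul_re, sub_zero]
  linear_combination (-z.im) * hdR

theorem unf_mem (g : SL(2, ℤ)) {z : ℂ} (hz : z ∈ UH) : mob g z ∈ UH := by
  have hz' : 0 < z.im := hz
  change 0 < (mob g z).im
  rw [unf_im g hz]
  have hne := unf_jj_ne g hz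
  positivity

theorem unf_jj_mul (g h : SL(2, ℤ)) {z : ℂ} (hz : z ∈ UH) :
    jj (g * h) z = jj g (mob h z) * jj h z := by
  have hne := unf_jj_ne h hz
  have e1 : jj g (mob h z) = ((g 1 0 : ℤ) : ℂ) * mob h z + ((g 1 1 : ℤ) : ℂ) := rfl
  rw [e1, unf_mob_eq]
  field_simp
  unfold jj
  simp only [Matrix.SpecialLinearGroup.coe_mul, Matrix.mul_apply, Fin.sum_univ_two]
  push_cast
  ring

theorem unf_mob_mul (g h : SL(2, ℤ)) {z : ℂ} (hz : z ∈ UH) :
    mob (g * h) z = mob g (mob h z) := by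
  have hne := unf_jj_ne h hz
  have hne2 := unf_jj_ne (g * h) hz
  have hne3 := unf_jj_ne g (unf_mem h hz)
  rw [unf_mob_eq (g * h), unf_mob_eq g, div_eq_div_iff hne2 hne3, unf_jj_mul g h hz]
  have : (((g * h) 0 0 : ℤ) : ℂ) * z + (((g * h) 0 1 : ℤ) : ℂ)
      = (((g 0 0 : ℤ) : ℂ) * mob h z + ((g 0 1 : ℤ) : ℂ)) * jj h z := by
    rw [unf_mob_eq h]
    field_simp
    unfold jj
    simp only [Matrix.SpecialLinearGroup.coe_mul, Matrix.mul_apply, Fin.sum_univ_two]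
    push_cast
    ring
  rw [this]
  ring

theorem unf_mob_one (z : ℂ) : mob 1 z = z := by
  simp [mob, mo]

theorem unf_jj_one (z : ℂ) : jj 1 z = 1 := by
  simp [jj]

theorem unf_inv_mob (g : SL(2, ℤ)) {z : ℂ} (hz : z ∈ UH) : mob g⁻¹ (mob g z) = z := by
  rw [← unf_mob_mul g⁻¹ g hz, inv_mul_cancel, unf_mob_one]

theorem unf_mob_inv (g : SL(2, ℤ)) {z : ℂ} (hz : z ∈ UH) : mob g (mob g⁻¹ z) = z := by
  rw [← unf_mob_mul g g⁻¹ hz, mul_inv_cancel, unf_mob_one]

theorem unf_injOn (g : SL(2, ℤ)) : Set.InjOn (mob g) UH := by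
  intro z hz w hw h
  rw [← unf_inv_mob g hz, h, unf_inv_mob g hw]

theorem unf_image (g : SL(2, ℤ)) : mob g '' UH = UH := by
  ext z
  constructor
  · rintro ⟨w, hw, rfl⟩
    exact unf_mem g hw
  · intro hz
    exact ⟨mob g⁻¹ z, unf_mem _ hz, unf_mob_inv g hz⟩

theorem unf_isOpen : IsOpen UH := isOpen_lt continuous_const Complex.continuous_im

theorem unf_measSet : MeasurableSet UH := unf_isOpen.measurableSet

theorem unf_meas_jj (g : SL(2, ℤ)) : Measurable (jj g) := by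
  unfold jj
  exact (measurable_const.mul measurable_id).add measurable_const

theorem unf_meas_mob (g : SL(2, ℤ)) : Measurable (mob g) := by
  have : mob g = fun z => (((g 0 0 : ℤ) : ℂ) * z + ((g 0 1 : ℤ) : ℂ)) / jj g z := rfl
  rw [this]
  exact ((measurable_const.mul measurable_id).add measurable_const).div (unf_meas_jj g)

theorem unf_deriv (g : SL(2, ℤ)) {z : ℂ} (hz : z ∈ UH) :
    HasDerivAt (mob g) (((jj g z) ^ 2)⁻¹) z := by
  have hne := unf_jj_ne g hz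
  have h1 : HasDerivAt (fun z : ℂ => ((g 0 0 : ℤ) : ℂ) * z + ((g 0 1 : ℤ) : ℂ))
      ((g 0 0 : ℤ) : ℂ) z := by
    simpa using ((hasDerivAt_id z).const_mul ((g 0 0 : ℤ) : ℂ)).add_const ((g 0 1 : ℤ) : ℂ)
  have h2 : HasDerivAt (jj g) ((g 1 0 : ℤ) : ℂ) z := by
    have h := ((hasDerivAt_id z).const_mul ((g 1 0 : ℤ) : ℂ)).add_const ((g 1 1 : ℤ) : ℂ)
    rw [mul_one] at h
    exact h
  have h3 := h1.div h2 hne
  have hd := unf_detC g
  have e : (((jj g z) ^ 2)⁻¹) = (((g 0 0 : ℤ) : ℂ) * jj g z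
      - (((g 0 0 : ℤ) : ℂ) * z + ((g 0 1 : ℤ) : ℂ)) * ((g 1 0 : ℤ) : ℂ)) / jj g z ^ 2 := by
    rw [eq_div_iff (pow_ne_zero 2 hne), inv_mul_cancel₀ (pow_ne_zero 2 hne)]
    unfold jj
    linear_combination -hd
  rw [e]
  exact h3

theorem unf_continuousOn (g : SL(2, ℤ)) : ContinuousOn (mob g) UH :=
  fun _ hz => (unf_deriv g hz).continuousAt.continuousWithinAt

/-- determinant of multiplication by a complex number -/
theorem unf_det_smul (c : ℂ) :
    ((ContinuousLinearMap.restrictScalars ℝ (ContinuousLinearMap.toSpanSingleton ℂ c : ℂ →L[ℂ] ℂ))).det = ‖c‖ ^ 2 := by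
  rw [ContinuousLinearMap.det]
  have h1 : (((ContinuousLinearMap.restrictScalars ℝ (ContinuousLinearMap.toSpanSingleton ℂ c : ℂ →L[ℂ] ℂ))) : ℂ →ₗ[ℝ] ℂ)
      = LinearMap.mul ℝ ℂ c := by
    ext z
    simp [mul_comm]
  rw [h1, ← Complex.normSq_eq_norm_sq, ← Algebra.norm_complex_apply]
  rfl

/-- change of variables -/
theorem unf_lint (g : SL(2, ℤ)) {A : Set ℂ} (hA : MeasurableSet A) (hAU : A ⊆ UH)
    (f : ℂ → ENNReal) :
    ∫⁻ z in mob g '' A, f z = ∫⁻ z in A, ENNReal.ofReal ((‖jj g z‖ ^ 4)⁻¹) * f (mob g z) := by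
  rw [lintegral_image_eq_lintegral_abs_det_fderiv_mul volume hA
    (f' := fun z => ContinuousLinearMap.restrictScalars ℝ
      (ContinuousLinearMap.toSpanSingleton ℂ (((jj g z) ^ 2)⁻¹) : ℂ →L[ℂ] ℂ))
    (fun z hz => ((unf_deriv g (hAU hz)).hasFDerivAt.restrictScalars ℝ).hasFDerivWithinAt)
    ((unf_injOn g).mono hAU)]
  refine setLIntegral_congr_fun hA fun z _ => ?_
  simp only [unf_det_smul]
  congr 2
  rw [abs_of_nonneg (by positivity), norm_inv, norm_pow]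
  rw [inv_pow, ← pow_mul]

theorem unf_int_iff {E : Type*} [NormedAddCommGroup E] [NormedSpace ℝ E] (g : SL(2, ℤ))
    {A : Set ℂ} (hA : MeasurableSet A) (hAU : A ⊆ UH) (f : ℂ → E) :
    IntegrableOn f (mob g '' A) ↔ IntegrableOn (fun z => ((‖jj g z‖ ^ 4)⁻¹) • f (mob g z)) A := by
  rw [integrableOn_image_iff_integrableOn_abs_det_fderiv_smul volume hA
    (f' := fun z => ContinuousLinearMap.restrictScalars ℝ
      (ContinuousLinearMap.toSpanSingleton ℂ (((jj g z) ^ 2)⁻¹) : ℂ →L[ℂ] ℂ))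
    (fun z hz => ((unf_deriv g (hAU hz)).hasFDerivAt.restrictScalars ℝ).hasFDerivWithinAt)
    ((unf_injOn g).mono hAU)]
  refine integrableOn_congr_fun (fun z _ => ?_) hA
  simp only [unf_det_smul]
  congr 1
  rw [abs_of_nonneg (by positivity), norm_inv, norm_pow]
  rw [inv_pow, ← pow_mul]

theorem unf_int {E : Type*} [NormedAddCommGroup E] [NormedSpace ℝ E] (g : SL(2, ℤ))
    {A : Set ℂ} (hA : MeasurableSet A) (hAU : A ⊆ UH) (f : ℂ → E) :
    ∫ z in mob g '' A, f z = ∫ z in A, ((‖jj g z‖ ^ 4)⁻¹) • f (mob g z) := by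
  rw [integral_image_eq_integral_abs_det_fderiv_smul volume hA
    (f' := fun z => ContinuousLinearMap.restrictScalars ℝ
      (ContinuousLinearMap.toSpanSingleton ℂ (((jj g z) ^ 2)⁻¹) : ℂ →L[ℂ] ℂ))
    (fun z hz => ((unf_deriv g (hAU hz)).hasFDerivAt.restrictScalars ℝ).hasFDerivWithinAt)
    ((unf_injOn g).mono hAU)]
  refine setIntegral_congr_fun hA fun z _ => ?_
  simp only [unf_det_smul]
  congr 1
  rw [abs_of_nonneg (by positivity), norm_inv, norm_pow]
  rw [inv_pow, ← pow_mul]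

/-- a.e. summable series of functions which are integrable with summable norms -/
theorem unf_tsum {α ι : Type*} [MeasurableSpace α] {μ : Measure α} [Countable ι]
    (F : ι → α → ℝ) (hF : ∀ i, Integrable (F i) μ) (hs : Summable fun i => ∫ a, ‖F i a‖ ∂μ) :
    Integrable (fun a => ∑' i, F i a) μ ∧ HasSum (fun i => ∫ a, F i a ∂μ) (∫ a, ∑' i, F i a ∂μ) := by
  refine ⟨?_, hasSum_integral_of_summable_integral_norm hF hs⟩
  have hfin : ∑' i, ∫⁻ a, ‖F i a‖ₑ ∂μ ≠ ⊤ := by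
    have (i : ι) : ∫⁻ a, ‖F i a‖ₑ ∂μ = ‖∫ a, ‖F i a‖ ∂μ‖ₑ := by
      rw [← ofReal_integral_norm_eq_lintegral_enorm (hF i), Real.enorm_eq_ofReal]
      exact integral_nonneg fun a => norm_nonneg _
    rw [funext this]
    exact ENNReal.tsum_coe_ne_top_iff_summable.2 <| NNReal.summable_coe.1 hs.abs
  have hlint : ∫⁻ a, ∑' i, ‖F i a‖ₑ ∂μ ≠ ⊤ := by
    rwa [lintegral_tsum (fun i => (hF i).1.enorm)]
  have hae : ∀ᵐ a ∂μ, Summable fun i => F i a := by
    refine (ae_lt_top' (AEMeasurable.tsum (fun i => (hF i).1.enorm)) hlint).mono ?_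
    intro x hx
    exact (tsum_enorm_ne_top_iff_summable_norm.1 hx.ne).of_norm
  refine ⟨?_, ?_⟩
  · refine aestronglyMeasurable_of_tendsto_ae (u := atTop)
      (f := fun (s : Finset ι) a => ∑ i ∈ s, F i a) (fun s => ?_) ?_
    · exact Finset.aestronglyMeasurable_fun_sum _ fun i _ => (hF i).1
    · filter_upwards [hae] with a ha using ha.hasSum
  · rw [HasFiniteIntegral]
    refine lt_of_le_of_lt (lintegral_mono_ae (g := fun a => ∑' i, ‖F i a‖ₑ) ?_) hlint.lt_top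
    filter_upwards [hae] with a ha
    exact enorm_tsum_le_tsum_enorm

end Pool.Agent.Helper96.MP
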