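import Pool.Agent.Helper96.MP.DefsB

/-!
# Module CBD: Cauchy-Schwarz and Hadamard type inequality for determinants
-/

set_option autoImplicit false

namespace Pool.Agent.Helper96.MP

open Finset

theorem cbd_one_le_det {ι : Type} [Fintype ι] [DecidableEq ι] (C : Matrix ι ι ℝ)
    (hC : C.PosSemidef) : 1 ≤ (1 + C).det := by
  have hH : (1 + C).IsHermitian := Matrix.isHermitian_one.add hC.isHermitian
  rw [hH.det_eq_prod_eigenvalues]
  have h1 : ∀ i, 1 ≤ hH.eigenvalues i := by
    intro i
    rw [hH.eigenvalues_eq i]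
    have h2 := hC.re_dotProduct_nonneg (⇑(hH.eigenvectorBasis i))
    rw [Matrix.add_mulVec, Matrix.one_mulVec, dotProduct_add, map_add]
    have h3 : RCLike.re (star (⇑(hH.eigenvectorBasis i)) ⬝ᵥ (⇑(hH.eigenvectorBasis i))) = (1 : ℝ) := by
      have h4 : ‖hH.eigenvectorBasis i‖ = 1 := (hH.eigenvectorBasis).orthonormal.1 i
      have h5 : inner ℝ (hH.eigenvectorBasis i) (hH.eigenvectorBasis i) = (1 : ℝ) := by
        rw [real_inner_self_eq_norm_sq, h4]
        norm_num
      rw [EuclideanSpace.inner_eq_star_dotProduct] at h5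
      rw [dotProduct_comm]
      exact h5
    rw [h3]
    linarith
  have h6 : (1 : ℝ) ≤ ∏ i, hH.eigenvalues i := by
    calc (1 : ℝ) = ∏ _i : ι, (1 : ℝ) := by simp
      _ ≤ _ := Finset.prod_le_prod (fun i _ => zero_le_one) (fun i _ => h1 i)
  exact_mod_cast h6

theorem cbd_gram {ι P : Type} [Fintype ι] [DecidableEq ι] [Fintype P] (Y : ι → P → ℝ) :
    (Matrix.of (fun i j : ι => ∑ x, Y i x * Y j x)) =
      (Matrix.of (fun (x : P) (i : ι) => Y i x)).conjTranspose * Matrix.of (fun (x : P) (i : ι) => Y i x) := by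
  ext i j
  simp [Matrix.mul_apply, Matrix.conjTranspose_apply]

theorem cbd_psd {ι P : Type} [Fintype ι] [DecidableEq ι] [Fintype P] (Y : ι → P → ℝ) :
    (Matrix.of (fun i j : ι => ∑ x, Y i x * Y j x)).PosSemidef := by
  rw [cbd_gram]
  exact Matrix.posSemidef_conjTranspose_mul_self _

theorem cbd_minor {ι P : Type} [Fintype ι] [DecidableEq ι] [Fintype P] (Y : ι → P → ℝ) (r : ι → P) :
    |(Matrix.of (fun i j : ι => Y j (r i))).det| ≤
      Real.sqrt (Matrix.of (fun i j : ι => ∑ x, Y i x * Y j x)).det := by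
  classical
  set A : Matrix ι ι ℝ := Matrix.of (fun i j : ι => Y j (r i)) with hA
  have h0 := (cbd_psd Y).det_nonneg
  by_cases hdet : A.det = 0
  · rw [hdet, abs_zero]
    exact Real.sqrt_nonneg _
  have hinj : Function.Injective r := by
    intro i j hij
    by_contra hne
    exact hdet (Matrix.det_zero_of_row_eq hne (by ext k; simp [hA, hij]))
  set Z : Matrix P ι ℝ := Matrix.of (fun x i => if x ∈ Finset.image r Finset.univ then 0 else Y i x)
    with hZ
  have hu : IsUnit A.det := isUnit_iff_ne_zero.2 hdet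
  have hsum : (Matrix.of (fun i j : ι => ∑ x, Y i x * Y j x)) = A.transpose * A + Z.transpose * Z := by
    ext i j
    simp only [Matrix.of_apply, Matrix.add_apply, Matrix.mul_apply, Matrix.transpose_apply, hA, hZ]
    have e1 : ∑ k, Y i (r k) * Y j (r k) = ∑ x ∈ Finset.image r Finset.univ, Y i x * Y j x := by
      rw [Finset.sum_image (fun a _ b _ h => hinj h)]
    have e2 : ∑ x, (if x ∈ Finset.image r Finset.univ then 0 else Y i x) *
        (if x ∈ Finset.image r Finset.univ then 0 else Y j x) =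
        ∑ x ∈ (Finset.image r Finset.univ)ᶜ, Y i x * Y j x := by
      rw [← Finset.sum_subset (Finset.subset_univ (Finset.image r Finset.univ)ᶜ)]
      · refine Finset.sum_congr rfl (fun x hx => ?_)
        rw [Finset.mem_compl] at hx
        rw [if_neg hx, if_neg hx]
      · intro x _ hx
        rw [Finset.mem_compl, not_not] at hx
        rw [if_pos hx, zero_mul]
    rw [e1, e2, Finset.sum_add_sum_compl]
  have hfac : A.transpose * A + Z.transpose * Z =
      A.transpose * (1 + (Z * A⁻¹).conjTranspose * (Z * A⁻¹)) * A := by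
    have e3 : (Z * A⁻¹).conjTranspose = (Z * A⁻¹).transpose := by
      ext i j
      simp [Matrix.conjTranspose_apply]
    have e4 : A.transpose * (Z * A⁻¹).transpose = Z.transpose := by
      rw [← Matrix.transpose_mul, Matrix.mul_assoc, Matrix.nonsing_inv_mul A hu, Matrix.mul_one]
    have e5 : (Z * A⁻¹) * A = Z := by
      rw [Matrix.mul_assoc, Matrix.nonsing_inv_mul A hu, Matrix.mul_one]
    rw [e3, Matrix.mul_add, Matrix.mul_one, Matrix.add_mul, ← Matrix.mul_assoc A.transpose, e4,
      Matrix.mul_assoc Z.transpose, e5]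
  have hge : A.det ^ 2 ≤ (Matrix.of (fun i j : ι => ∑ x, Y i x * Y j x)).det := by
    rw [hsum, hfac, Matrix.det_mul, Matrix.det_mul, Matrix.det_transpose]
    have h1 := cbd_one_le_det _ (Matrix.posSemidef_conjTranspose_mul_self (Z * A⁻¹))
    nlinarith [sq_nonneg A.det]
  rw [← Real.sqrt_sq_eq_abs]
  exact Real.sqrt_le_sqrt hge

theorem cbd_expand {ι P : Type} [Fintype ι] [DecidableEq ι] [Fintype P] (X Y : ι → P → ℝ) :
    (Matrix.of (fun i j : ι => ∑ x, X i x * Y j x)).det =
      ∑ r : ι → P, (∏ i, X i (r i)) * (Matrix.of (fun i j : ι => Y j (r i))).det := by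
  classical
  have h1 := (Matrix.detRowAlternating (n := ι) (R := ℝ)).toMultilinearMap.map_sum
    (fun (i : ι) (x : P) => (fun j : ι => X i x * Y j x))
  have h2 : (Matrix.of (fun i j : ι => ∑ x, X i x * Y j x)).det =
      (Matrix.detRowAlternating (n := ι) (R := ℝ)).toMultilinearMap
        (fun i => ∑ x, (fun j : ι => X i x * Y j x)) := by
    have e : (Matrix.of (fun i j : ι => ∑ x, X i x * Y j x)) =
        (fun i => ∑ x, (fun j : ι => X i x * Y j x)) := by
      ext i j
      simp [Finset.sum_apply]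
    rw [e]
    rfl
  rw [h2, h1]
  refine Finset.sum_congr rfl (fun r _ => ?_)
  have h3 := (Matrix.detRowAlternating (n := ι) (R := ℝ)).toMultilinearMap.map_smul_univ
    (fun i => X i (r i)) (fun i => (fun j : ι => Y j (r i)))
  exact h3

theorem st_CBD : ST_CBD := by
  intro ι P _ _ _ X Y
  classical
  refine ⟨(cbd_psd Y).det_nonneg, ?_⟩
  rw [cbd_expand]
  calc |∑ r : ι → P, (∏ i, X i (r i)) * (Matrix.of (fun i j : ι => Y j (r i))).det|
      ≤ ∑ r : ι → P, |(∏ i, X i (r i)) * (Matrix.of (fun i j : ι => Y j (r i))).det| :=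
        Finset.abs_sum_le_sum_abs _ _
    _ ≤ ∑ r : ι → P, (∏ i, |X i (r i)|) *
        Real.sqrt (Matrix.of (fun i j : ι => ∑ x, Y i x * Y j x)).det := by
        refine Finset.sum_le_sum (fun r _ => ?_)
        rw [abs_mul, Finset.abs_prod]
        exact mul_le_mul_of_nonneg_left (cbd_minor Y r) (Finset.prod_nonneg (fun i _ => abs_nonneg _))
    _ = Real.sqrt (Matrix.of (fun i j : ι => ∑ x, Y i x * Y j x)).det * ∏ i, ∑ x, |X i x| := by
        rw [← Finset.sum_mul, mul_comm]
        congr 1
        rw [Finset.prod_univ_sum, Fintype.piFinset_univ]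

end Pool.Agent.Helper96.MP
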