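import Pool.Agent.Helper96.MP.Defs

/-!
Chebyshev's lower bound at powers of two.
-/

set_option autoImplicit false

namespace Pool.Agent.Helper96.MP

theorem cheb_pow (j : ℕ) (hj : 2 ≤ j) : 2 ^ j + 4 * (j + 1) ≤ 4 * 2 ^ j := by
  induction j, hj using Nat.le_induction with
  | base => norm_num
  | succ n hn ih =>
    rw [pow_succ]
    omega

theorem st_CHEB : ST_CHEB := by
  refine ⟨1 / 4, by norm_num, fun j hj => ?_⟩
  rcases Nat.lt_or_ge j 2 with h1 | h1
  · have hj1 : j = 1 := by omega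
    subst hj1
    have h2 : 1 ≤ Nat.primeCounting (2 ^ 1) := by
      have h3 : Nat.primeCounting (2 ^ 1) ≠ 0 := by
        rw [Ne, Nat.primeCounting_eq_zero_iff]
        norm_num
      omega
    have h3 : (1 : ℝ) ≤ (Nat.primeCounting (2 ^ 1) : ℝ) := by exact_mod_cast h2
    have h4 : 1 / 4 * (2 : ℝ) ^ 1 / ((1 : ℕ) : ℝ) ≤ 1 := by norm_num
    exact h4.trans h3
  · have h2 := Chebyshev.pi_ge (2 ^ j)
    refine le_trans ?_ h2
    have hj0 : (0 : ℝ) < j := by exact_mod_cast (by omega : 0 < j)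
    have hl2 : 0 < Real.log 2 := Real.log_pos (by norm_num)
    have hlog : Real.log (((2 ^ j : ℕ) : ℝ)) = j * Real.log 2 := by
      push_cast
      rw [Real.log_pow]
    have hlog2 : Real.log (((2 ^ j : ℕ) : ℝ) + 1) ≤ (j + 1) * Real.log 2 := by
      have h3 : ((2 ^ j : ℕ) : ℝ) + 1 ≤ 2 ^ (j + 1) := by
        push_cast
        rw [pow_succ]
        have : (1 : ℝ) ≤ 2 ^ j := one_le_pow₀ (by norm_num)
        linarith
      have h4 := Real.log_le_log (by positivity) h3
      rw [Real.log_pow] at h4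
      push_cast at h4 ⊢
      exact h4
    rw [hlog, div_le_div_iff₀ hj0 (by positivity)]
    have h5 : (2 : ℝ) ^ j + 4 * (j + 1) ≤ 4 * 2 ^ j := by exact_mod_cast cheb_pow j h1
    have h6 : ((2 ^ j : ℕ) : ℝ) = 2 ^ j := by push_cast; rfl
    rw [h6] at hlog2 ⊢
    have h7 : 1 / 4 * (2 : ℝ) ^ j * Real.log 2 ≤ 2 ^ j * Real.log 2 - Real.log (2 ^ j + 1) := by
      have h8 : (1 / 4 * (2 : ℝ) ^ j) * Real.log 2 ≤ (2 ^ j - (j + 1)) * Real.log 2 :=
        mul_le_mul_of_nonneg_right (by linarith) hl2.le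
      linarith
    have h9 := mul_le_mul_of_nonneg_right h7 hj0.le
    linarith

end Pool.Agent.Helper96.MP
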