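import Pool.Agent.Helper45.MP.UNFB

/-!
Conformal invariance.
-/

set_option autoImplicit false

namespace Pool.Agent.Helper96.MP

open Complex MeasureTheory Filter Topology
open scoped MatrixGroups

theorem conf_diff {u : ℂ → ℝ} (hu : ContDiffOn ℝ (⊤ : ℕ∞) u UH) {z : ℂ} (hz : z ∈ UH) :
    DifferentiableAt ℝ u z :=
  (hu.contDiffAt (unf_isOpen.mem_nhds hz)).differentiableAt (by simp)

theorem conf_lin (L : ℂ →L[ℝ] ℝ) (w : ℂ) : L w = w.re * L 1 + w.im * L I := by
  have h : w = w.re • (1 : ℂ) + w.im • I := by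
    simp only [real_smul, mul_one]
    exact (re_add_im w).symm
  conv_lhs => rw [h]
  rw [map_add, map_smul, map_smul, smul_eq_mul, smul_eq_mul]

theorem conf_cc {N : ℕ} {W : ℂ → ℝ} {ρ : SL(2, ℤ) → ℝ} {u : ℂ → ℝ} (hu : Adm N W ρ u)
    {g : SL(2, ℤ)} (hg : g ∈ CongruenceSubgroup.Gamma0 N) {z : ℂ} (hz : z ∈ UH) :
    cc u (mob g z) = jj g z ^ 2 * cc u z := by
  have hne := unf_jj_ne g hz
  have hd := conf_diff hu.smooth (unf_mem g hz)
  have h1 : HasFDerivAt (fun w => u (mob g w)) ((fderiv ℝ u (mob g z)).comp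
      (ContinuousLinearMap.restrictScalars ℝ
        (ContinuousLinearMap.toSpanSingleton ℂ (((jj g z) ^ 2)⁻¹) : ℂ →L[ℂ] ℂ))) z :=
    hd.hasFDerivAt.comp z ((unf_deriv g hz).hasFDerivAt.restrictScalars ℝ)
  have h2 : HasFDerivAt (fun w => u (mob g w)) (fderiv ℝ u z) z := by
    have h3 : HasFDerivAt (fun w => u w + ρ g) (fderiv ℝ u z) z :=
      (conf_diff hu.smooth hz).hasFDerivAt.add_const (ρ g)
    refine h3.congr_of_eventuallyEq ?_
    filter_upwards [unf_isOpen.mem_nhds hz] with w hw using hu.eqv g hg w hw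
  have h4 := h1.unique h2
  set c : ℂ := ((jj g z) ^ 2)⁻¹ with hc
  have h5 : ∀ w : ℂ, fderiv ℝ u z w = fderiv ℝ u (mob g z) (w * c) := by
    intro w
    rw [← h4]
    simp
  have hx : ux u z = c.re * ux u (mob g z) + c.im * uy u (mob g z) := by
    unfold ux uy
    rw [h5 1, one_mul, conf_lin _ c]
  have hy : uy u z = -c.im * ux u (mob g z) + c.re * uy u (mob g z) := by
    unfold ux uy
    rw [h5 I, conf_lin _ (I * c)]
    simp
  have h6 : cc u z = c * cc u (mob g z) := by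
    unfold cc
    rw [hx, hy]
    have hc2 : c = (c.re : ℂ) + (c.im : ℂ) * I := (re_add_im c).symm
    conv_rhs => rw [hc2]
    push_cast
    have hI : I * I = -1 := I_mul_I
    linear_combination ((c.im : ℂ) * (uy u (mob g z) : ℂ)) * hI
  rw [h6, hc]
  field_simp

theorem conf_DD (u v : ℂ → ℝ) (z : ℂ) : DD u v z = (cc u z * (starRingEnd ℂ) (cc v z)).re := by
  unfold DD cc
  simp

theorem st_CONF : ST_CONF := by
  intro N W ρ ρ' u v _ hu hv g hg z hz
  have h1 := conf_cc hu hg hz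
  have h2 := conf_cc hv hg hz
  refine ⟨h1, ?_⟩
  rw [conf_DD, conf_DD, h1, h2]
  have h3 : jj g z ^ 2 * cc u z * (starRingEnd ℂ) (jj g z ^ 2 * cc v z)
      = ((‖jj g z‖ ^ 4 : ℝ) : ℂ) * (cc u z * (starRingEnd ℂ) (cc v z)) := by
    have h4 : jj g z * (starRingEnd ℂ) (jj g z) = ((‖jj g z‖ ^ 2 : ℝ) : ℂ) := by
      rw [Complex.mul_conj, Complex.normSq_eq_norm_sq]
    rw [map_mul, map_pow]
    have h5 : ((‖jj g z‖ ^ 4 : ℝ) : ℂ) = (jj g z * (starRingEnd ℂ) (jj g z)) ^ 2 := by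
      rw [h4]
      push_cast
      ring
    rw [h5]
    ring
  rw [h3, Complex.re_ofReal_mul]

end Pool.Agent.Helper96.MP
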