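import Pool.Agent.Helper96.MP.DefsB

/-!
# Module FIBC: number of elements of the fibres of `P¹(ℤ/q^(e+1)) → P¹(ℤ/q^e)`
-/

set_option autoImplicit false

namespace Pool.Agent.Helper96.MP

open Finset

theorem fibc_red (N M : ℕ) (h : M ∣ N) (c d : ℤ) (hu : Uni N c d) (hu' : Uni M c d) :
    pnf_red M h (Quotient.mk (sPN N) ⟨(c, d), hu⟩) = Quotient.mk (sPN M) ⟨(c, d), hu'⟩ := by
  have h1 := pnf_out_spec (Quotient.mk (sPN N) ⟨(c, d), hu⟩ : PN N)
  have h2 : eqv N (pnf_out (Quotient.mk (sPN N) ⟨(c, d), hu⟩ : PN N)).1.1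
      (pnf_out (Quotient.mk (sPN N) ⟨(c, d), hu⟩ : PN N)).1.2 c d := Quotient.exact h1
  exact Quotient.sound (pnf_eqv_mono h h2)

theorem fibc_one (q M N : ℕ) (hq : q.Prime) (hM : M = 1) (hN : N = q) (h : M ∣ N) (y : PN M) :
    q ≤ Nat.card {x : PN N // pnf_red M h x = y} ∧
      Nat.card {x : PN N // pnf_red M h x = y} ≤ q + 1 := by
  subst hM hN
  have hsub : Subsingleton (PN 1) := by
    refine ⟨fun x y => pnf_eq_of_eqv ⟨1, isCoprime_one_left, ?_, ?_⟩⟩ <;>
      exact one_dvd _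
  have e : {x : PN N // pnf_red 1 h x = y} ≃ PN N :=
    { toFun := fun x => x.1
      invFun := fun x => ⟨x, Subsingleton.elim _ _⟩
      left_inv := fun x => rfl
      right_inv := fun x => rfl }
  rw [Nat.card_congr e]
  exact ⟨pnf_le N hq.one_lt.le, pnf_prime N hq⟩

theorem fibc_lower (q M N : ℕ) (hq : q.Prime) (hM : 1 ≤ M) (hqM : q ∣ M) (hN : N = q * M)
    (h : M ∣ N) (y : PN M) : q ≤ Nat.card {x : PN N // pnf_red M h x = y} := by
  subst hN
  have hN1 : 1 ≤ q * M := Nat.mul_pos hq.pos hM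
  have := pnf_finite (q * M) hN1
  obtain ⟨⟨⟨c, d⟩, hu⟩, hy⟩ := Quotient.exists_rep y
  have hu : Uni M c d := hu
  obtain ⟨a, b, k0, hk0⟩ := (pnf_uni_iff M c d).1 hu
  have hqM' : (q : ℤ) ∣ (M : ℤ) := by exact_mod_cast hqM
  obtain ⟨n, hn⟩ := hqM'
  have hM0 : (M : ℤ) ≠ 0 := by
    have : (1 : ℤ) ≤ (M : ℤ) := by exact_mod_cast hM
    omega
  have huni : ∀ k : ℤ, Uni (q * M) (c - M * (b * k)) (d + M * (a * k)) := by
    intro k
    -- `a c' + b d' = a c + b d = 1 - k0 M`, and `(1 - k0 M)(1 + k0 M) = 1 - k0² M²`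
    refine (pnf_uni_iff _ _ _).2 ⟨a * (1 + k0 * M), b * (1 + k0 * M), k0 ^ 2 * n, ?_⟩
    push_cast
    have hN2 : (M : ℤ) * M = q * M * n := by
      nth_rewrite 1 [hn]
      ring
    linear_combination (1 + k0 * M) * hk0 - k0 ^ 2 * hN2
  have hmem : ∀ k : ℤ, pnf_red M h (Quotient.mk (sPN (q * M))
      ⟨(c - M * (b * k), d + M * (a * k)), huni k⟩) = y := by
    intro k
    rw [fibc_red (q * M) M h _ _ (huni k) (pnf_uni_mono h (huni k)), ← hy]
    refine Quotient.sound (⟨1, isCoprime_one_left, ?_, ?_⟩ :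
      eqv M (c - M * (b * k)) (d + M * (a * k)) c d)
    · exact ⟨b * k, by ring⟩
    · exact ⟨-(a * k), by ring⟩
  let f : Fin q → {x : PN (q * M) // pnf_red M h x = y} := fun k => ⟨_, hmem (k.1 : ℤ)⟩
  have hf : Function.Injective f := by
    intro k k' hkk
    have h0 := congrArg Subtype.val hkk
    obtain ⟨l, -, ⟨u, hu1⟩, ⟨v, hv1⟩⟩ := (Quotient.exact h0 :
      eqv (q * M) (c - M * (b * (k.1 : ℤ))) (d + M * (a * (k.1 : ℤ)))
        (c - M * (b * (k'.1 : ℤ))) (d + M * (a * (k'.1 : ℤ))))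
    push_cast at hu1 hv1
    -- `l = 1 + M t`
    obtain ⟨t, ht⟩ : (M : ℤ) ∣ l - 1 := by
      refine ⟨-(a * (q * u)) - b * (q * v) + k0 * (l - 1)
        + a * (l * (b * (k.1 : ℤ)) - b * (k'.1 : ℤ)) - b * (l * (a * (k.1 : ℤ)) - a * (k'.1 : ℤ)), ?_⟩
      linear_combination (-(l - 1)) * hk0 - a * hu1 - b * hv1
    have e1 : c * (-t) + b * (k.1 : ℤ) - b * (k'.1 : ℤ) + M * b * (k.1 : ℤ) * t = q * u := by
      apply mul_left_cancel₀ hM0
      have hl : l = 1 + M * t := by linarith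
      rw [hl] at hu1
      linear_combination hu1
    have e2 : d * (-t) - a * (k.1 : ℤ) + a * (k'.1 : ℤ) - M * a * (k.1 : ℤ) * t = q * v := by
      apply mul_left_cancel₀ hM0
      have hl : l = 1 + M * t := by linarith
      rw [hl] at hv1
      linear_combination hv1
    have h3 : (q : ℤ) ∣ (k'.1 : ℤ) - (k.1 : ℤ) := by
      refine ⟨c * v - d * u + n * k0 * ((k'.1 : ℤ) - (k.1 : ℤ)) + n * (k.1 : ℤ) * t * (1 - k0 * M), ?_⟩
      linear_combination (c * e2 - d * e1) + ((k'.1 : ℤ) - (k.1 : ℤ)) * (-hk0)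
        + (k.1 : ℤ) * M * t * hk0 + k0 * ((k'.1 : ℤ) - (k.1 : ℤ)) * hn
        + (k.1 : ℤ) * t * (1 - k0 * M) * hn
    have h4 : ((k'.1 : ℤ) - (k.1 : ℤ)) = 0 := by
      refine Int.eq_zero_of_abs_lt_dvd h3 ?_
      have := k.2
      have := k'.2
      rw [abs_lt]
      constructor <;> omega
    exact Fin.ext (by omega)
  calc q = Nat.card (Fin q) := by simp
    _ ≤ _ := Nat.card_le_card_of_injective f hf

theorem fibc_upper (q M N : ℕ) (hq : q.Prime) (hM : 1 ≤ M) (hqM : q ∣ M) (hN : N = q * M)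
    (h : M ∣ N) (y : PN M) : Nat.card {x : PN N // pnf_red M h x = y} ≤ q := by
  subst hN
  have : Fact q.Prime := ⟨hq⟩
  have hN1 : 1 ≤ q * M := Nat.mul_pos hq.pos hM
  have := pnf_finite (q * M) hN1
  have hqM' : (q : ℤ) ∣ (M : ℤ) := by exact_mod_cast hqM
  set c := (pnf_out y).1.1 with hc
  set d := (pnf_out y).1.2 with hd
  have hu : Uni M c d := (pnf_out y).2
  obtain ⟨a, b, k, hk⟩ := (pnf_uni_iff q c d).1 (pnf_uni_mono hqM hu)
  have hrep : ∀ x : {x : PN (q * M) // pnf_red M h x = y}, ∃ x1 y1 : ℤ,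
      eqv (q * M) (pnf_out x.1).1.1 (pnf_out x.1).1.2 (c + M * x1) (d + M * y1) := by
    rintro ⟨x, hx⟩
    have h0 : eqv M (pnf_out x).1.1 (pnf_out x).1.2 c d := by
      have h1 := pnf_out_spec y
      rw [← hx] at h1
      have h2 := Quotient.exact h1
      rw [hx] at h2
      exact eqv_symm h2
    obtain ⟨l, hl, ⟨x1, hx1⟩, ⟨y1, hy1⟩⟩ := h0
    refine ⟨-x1, -y1, l, ?_, ?_, ?_⟩
    · push_cast
      exact (hl.of_isCoprime_of_dvd_right hqM').mul_right hl
    · have : c + (M : ℤ) * (-x1) - l * (pnf_out x).1.1 = 0 := by linarith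
      rw [this]
      exact dvd_zero _
    · have : d + (M : ℤ) * (-y1) - l * (pnf_out x).1.2 = 0 := by linarith
      rw [this]
      exact dvd_zero _
  choose X Y hXY using hrep
  let f : {x : PN (q * M) // pnf_red M h x = y} → ZMod q := fun x =>
    ((c * Y x - d * X x : ℤ) : ZMod q)
  have hf : Function.Injective f := by
    intro x y' hxy
    have h2 := hxy
    simp only [f] at h2
    have ex := hXY x
    have ey := hXY y'
    rw [ZMod.intCast_eq_intCast_iff_dvd_sub] at h2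
    obtain ⟨w, hw⟩ := h2
    have m : eqv (q * M) (c + M * X x) (d + M * Y x) (c + M * X y') (d + M * Y y') := by
      obtain ⟨n, hn⟩ := hqM'
      refine ⟨1 + M * (a * (X y' - X x) + b * (Y y' - Y x)), ?_, ?_, ?_⟩
      · have e1 : IsCoprime (1 + (M : ℤ) * (a * (X y' - X x) + b * (Y y' - Y x))) (M : ℤ) :=
          IsCoprime.add_mul_left_left isCoprime_one_left _
        push_cast
        exact (e1.of_isCoprime_of_dvd_right ⟨n, hn⟩).mul_right e1
      · push_cast
        refine ⟨k * (X y' - X x) - b * w - (a * (X y' - X x) + b * (Y y' - Y x)) * X x * n, ?_⟩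
        have hN2 : (M : ℤ) * M = q * M * n := by
          nth_rewrite 1 [hn]
          ring
        linear_combination (M : ℤ) * (X y' - X x) * (-hk) - (M : ℤ) * b * hw
          - (a * (X y' - X x) + b * (Y y' - Y x)) * X x * hN2
      · push_cast
        refine ⟨k * (Y y' - Y x) + a * w - (a * (X y' - X x) + b * (Y y' - Y x)) * Y x * n, ?_⟩
        have hN2 : (M : ℤ) * M = q * M * n := by
          nth_rewrite 1 [hn]
          ring
        linear_combination (M : ℤ) * (Y y' - Y x) * (-hk) + (M : ℤ) * a * hw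
          - (a * (X y' - X x) + b * (Y y' - Y x)) * Y x * hN2
    exact Subtype.ext (pnf_eq_of_eqv (eqv_trans (eqv_trans ex m) (eqv_symm ey)))
  calc Nat.card {x : PN (q * M) // pnf_red M h x = y} ≤ Nat.card (ZMod q) :=
        Nat.card_le_card_of_injective f hf
    _ = q := Nat.card_zmod q

theorem st_FIBC : ST_FIBC := by
  intro q e hq h y
  rcases Nat.eq_zero_or_pos e with he | he
  · subst he
    exact fibc_one q _ _ hq (pow_zero q) (by rw [zero_add, pow_one]) h y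
  · have hM : 1 ≤ q ^ e := Nat.pos_of_ne_zero (pow_ne_zero e hq.ne_zero)
    have hqM : q ∣ q ^ e := dvd_pow_self q (by omega)
    have hN : q ^ (e + 1) = q * q ^ e := pow_succ' q e
    exact ⟨fibc_lower q _ _ hq hM hqM hN h y,
      (fibc_upper q _ _ hq hM hqM hN h y).trans (Nat.le_succ q)⟩

end Pool.Agent.Helper96.MP
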