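import Pool.Agent.Helper45.MP.UNFB

/-!
Overlap numbers.
-/

set_option autoImplicit false

namespace Pool.Agent.Helper96.MP

open Complex MeasureTheory Filter Topology
open scoped MatrixGroups

theorem over_ext {g h : SL(2, ℤ)} (h00 : (g 0 0 : ℤ) = h 0 0) (h01 : (g 0 1 : ℤ) = h 0 1)
    (h10 : (g 1 0 : ℤ) = h 1 0) (h11 : (g 1 1 : ℤ) = h 1 1) : g = h := by
  apply Matrix.SpecialLinearGroup.ext
  intro i j
  fin_cases i <;> fin_cases j
  · exact h00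
  · exact h01
  · exact h10
  · exact h11

/-- if `a z + b` is bounded then `a`, `b` are bounded -/
theorem over_bd {a b : ℤ} {z : ℂ} {y R T : ℝ} (hy : 0 < y) (hz : y ≤ z.im) (hR : ‖z‖ ≤ R)
    (hT : ‖(a : ℂ) * z + (b : ℂ)‖ ≤ T) : |(a : ℝ)| ≤ T / y ∧ |(b : ℝ)| ≤ T + T / y * R := by
  have h1 : |(a : ℝ)| ≤ T / y := by
    rw [le_div_iff₀ hy]
    have h2 : |((a : ℂ) * z + (b : ℂ)).im| ≤ T := (Complex.abs_im_le_norm _).trans hT
    have h3 : ((a : ℂ) * z + (b : ℂ)).im = (a : ℝ) * z.im := by simp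
    rw [h3, abs_mul, abs_of_pos (hy.trans_le hz)] at h2
    exact (mul_le_mul_of_nonneg_left hz (abs_nonneg _)).trans h2
  refine ⟨h1, ?_⟩
  have h4 : (b : ℂ) = ((a : ℂ) * z + (b : ℂ)) - (a : ℂ) * z := by ring
  have h5 : |(b : ℝ)| = ‖(b : ℂ)‖ := by
    rw [Complex.norm_intCast]
  rw [h5, h4]
  refine (norm_sub_le _ _).trans (add_le_add hT ?_)
  rw [norm_mul, Complex.norm_intCast]
  exact mul_le_mul h1 hR (norm_nonneg _) ((abs_nonneg _).trans h1)

theorem over_fin (K : Set ℂ) (hK : IsCompact K) (hKU : K ⊆ UH) :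
    {g : SL(2, ℤ) | ∃ z ∈ K, mob g z ∈ K}.Finite := by
  rcases K.eq_empty_or_nonempty with rfl | hne
  · simp
  obtain ⟨z0, hz0, hmin⟩ := hK.exists_isMinOn hne Complex.continuous_im.continuousOn
  obtain ⟨R, hR⟩ := hK.isBounded.exists_norm_le
  set y : ℝ := z0.im with hy
  have hy0 : 0 < y := hKU hz0
  have hmin' : ∀ z ∈ K, y ≤ z.im := fun z hz => hmin hz
  have hR0 : 0 ≤ R := (norm_nonneg _).trans (hR z0 hz0)
  set T : ℝ := Real.sqrt (R / y) with hT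
  have hT0 : 0 ≤ T := Real.sqrt_nonneg _
  set B1 : ℝ := max (T / y) (T + T / y * R) with hB1
  set B2 : ℝ := max (R * T / y) (R * T + R * T / y * R) with hB2
  obtain ⟨B, hB⟩ := exists_nat_ge (max B1 B2)
  have hfin : (((Finset.Icc (-(B : ℤ)) B) ×ˢ (Finset.Icc (-(B : ℤ)) B) ×ˢ
    (Finset.Icc (-(B : ℤ)) B) ×ˢ (Finset.Icc (-(B : ℤ)) B) : Finset (ℤ × ℤ × ℤ × ℤ)) :
      Set (ℤ × ℤ × ℤ × ℤ)).Finite := Finset.finite_toSet _
  refine Set.Finite.of_injOn (f := fun g : SL(2, ℤ) =>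
    ((g 0 0 : ℤ), (g 0 1 : ℤ), (g 1 0 : ℤ), (g 1 1 : ℤ))) ?_ ?_ hfin
  · rintro g ⟨z, hz, hgz⟩
    have hzU := hKU hz
    have hne' := unf_jj_ne g hzU
    have hj : ‖jj g z‖ ≤ T := by
      rw [hT]
      apply Real.le_sqrt_of_sq_le
      have him := unf_im g hzU
      have h1 : y ≤ (mob g z).im := hmin' _ hgz
      rw [him, le_div_iff₀ (by positivity)] at h1
      rw [le_div_iff₀ hy0]
      have h2 : z.im ≤ R := ((le_abs_self _).trans (Complex.abs_im_le_norm z)).trans (hR z hz)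
      nlinarith
    have hcd := over_bd (a := g 1 0) (b := g 1 1) hy0 (hmin' z hz) (hR z hz) hj
    have hab0 : ‖((g 0 0 : ℤ) : ℂ) * z + ((g 0 1 : ℤ) : ℂ)‖ ≤ R * T := by
      have h1 : ((g 0 0 : ℤ) : ℂ) * z + ((g 0 1 : ℤ) : ℂ) = mob g z * jj g z := by
        rw [unf_mob_eq]
        field_simp
      rw [h1, norm_mul]
      exact mul_le_mul (hR _ hgz) hj (norm_nonneg _) hR0
    have hab := over_bd (a := g 0 0) (b := g 0 1) hy0 (hmin' z hz) (hR z hz) hab0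
    have hint : ∀ (a : ℤ), |(a : ℝ)| ≤ max B1 B2 → a ∈ Finset.Icc (-(B : ℤ)) B := by
      intro a ha
      have h1 : |(a : ℝ)| ≤ (B : ℝ) := ha.trans hB
      have h2 : |a| ≤ (B : ℤ) := by exact_mod_cast h1
      rw [Finset.mem_Icc]
      exact abs_le.1 h2
    simp only [Finset.coe_product, Set.mem_prod, Finset.mem_coe]
    refine ⟨hint _ ?_, hint _ ?_, hint _ ?_, hint _ ?_⟩
    · exact (hab.1.trans (le_max_left _ _)).trans (le_max_right _ _)
    · exact (hab.2.trans (le_max_right _ _)).trans (le_max_right _ _)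
    · exact (hcd.1.trans (le_max_left _ _)).trans (le_max_left _ _)
    · exact (hcd.2.trans (le_max_right _ _)).trans (le_max_left _ _)
  · intro g _ h _ hgh
    simp only [Prod.mk.injEq] at hgh
    exact over_ext hgh.1 hgh.2.1 hgh.2.2.1 hgh.2.2.2

theorem over_cusp {k : SL(2, ℤ)} {w : ℂ} (hw : 0 ≤ w.re ∧ w.re ≤ 1 ∧ 2 ≤ w.im)
    (hk : 0 ≤ (mob k w).re ∧ (mob k w).re ≤ 1 ∧ 2 ≤ (mob k w).im) :
    (k 1 0 : ℤ) = 0 ∧ (k 1 1 : ℤ) = k 0 0 ∧ ((k 0 0 : ℤ) = 1 ∨ (k 0 0 : ℤ) = -1) ∧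
      -1 ≤ (k 0 1 : ℤ) ∧ (k 0 1 : ℤ) ≤ 1 := by
  have hwU : w ∈ UH := by
    change 0 < w.im
    linarith [hw.2.2]
  have hne := unf_jj_ne k hwU
  have hc : (k 1 0 : ℤ) = 0 := by
    by_contra hc
    have h1 : (1 : ℝ) ≤ |((k 1 0 : ℤ) : ℝ)| := by
      exact_mod_cast Int.one_le_abs hc
    have h2 : w.im ≤ ‖jj k w‖ := by
      refine le_trans ?_ (Complex.abs_im_le_norm _)
      have h0 : 0 < w.im := hwU
      rw [unf_jj_im, abs_mul, abs_of_pos h0]
      nlinarith [hw.2.2]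
    have h3 := hk.2.2
    rw [unf_im k hwU, le_div_iff₀ (by positivity)] at h3
    nlinarith [hw.2.2]
  have hd := unf_det k
  rw [hc, mul_zero, sub_zero] at hd
  have hcases : ((k 0 0 : ℤ) = 1 ∧ (k 1 1 : ℤ) = 1) ∨ ((k 0 0 : ℤ) = -1 ∧ (k 1 1 : ℤ) = -1) :=
    Int.mul_eq_one_iff_eq_one_or_neg_one.1 hd
  have hre : (mob k w).re = w.re + (k 0 0 : ℤ) * (k 0 1 : ℤ) := by
    rw [unf_mob_eq]
    unfold jj
    rw [hc]
    rcases hcases with ⟨ha, hb⟩ | ⟨ha, hb⟩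
    · rw [ha, hb]
      simp
    · rw [ha, hb]
      have e : (((-1 : ℤ) : ℂ) * w + ((k 0 1 : ℤ) : ℂ)) / (((0 : ℤ) : ℂ) * w + ((-1 : ℤ) : ℂ))
          = w - ((k 0 1 : ℤ) : ℂ) := by
        push_cast
        field_simp
        ring
      rw [e]
      simp
      ring
  have h1 := hk.1
  have h2 := hk.2.1
  rw [hre] at h1 h2
  have h3 := hw.1
  have h4 := hw.2.1
  rcases hcases with ⟨ha, hb⟩ | ⟨ha, hb⟩
  · refine ⟨hc, by rw [ha, hb], Or.inl ha, ?_, ?_⟩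
    · rw [ha] at h1
      have : (-1 : ℝ) ≤ (k 0 1 : ℤ) := by push_cast at h1 ⊢; linarith
      exact_mod_cast this
    · rw [ha] at h2
      have : ((k 0 1 : ℤ) : ℝ) ≤ 1 := by push_cast at h2 ⊢; linarith
      exact_mod_cast this
  · refine ⟨hc, by rw [ha, hb], Or.inr ha, ?_, ?_⟩
    · rw [ha] at h2
      have : (-1 : ℝ) ≤ (k 0 1 : ℤ) := by push_cast at h2 ⊢; linarith
      exact_mod_cast this
    · rw [ha] at h1
      have : ((k 0 1 : ℤ) : ℝ) ≤ 1 := by push_cast at h1 ⊢; linarith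
      exact_mod_cast this

theorem st_OVER : ST_OVER := by
  constructor
  · intro K hK hKU
    have hfin := over_fin K hK hKU
    refine ⟨{g : SL(2, ℤ) | ∃ z ∈ K, mob g z ∈ K}.ncard, fun z hz => ?_⟩
    have hsub : {g : SL(2, ℤ) | mob g z ∈ K} ⊆ {g : SL(2, ℤ) | ∃ z ∈ K, mob g z ∈ K} :=
      fun g hg => ⟨z, hz, hg⟩
    exact ⟨hfin.subset hsub, Set.ncard_le_ncard hsub hfin⟩
  · rintro h z ⟨w, hw, rfl⟩
    have hwU : w ∈ UH := by
      change 0 < w.im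
      linarith [hw.2.2]
    set S : Set SL(2, ℤ) := {g : SL(2, ℤ) | mob g (mob h w) ∈
      mob h '' {z : ℂ | 0 ≤ z.re ∧ z.re ≤ 1 ∧ 2 ≤ z.im}} with hS
    have key : ∀ g ∈ S, 0 ≤ (mob (h⁻¹ * g * h) w).re ∧ (mob (h⁻¹ * g * h) w).re ≤ 1 ∧
        2 ≤ (mob (h⁻¹ * g * h) w).im := by
      rintro g ⟨w', hw', he⟩
      have hw'U : w' ∈ UH := by
        change 0 < w'.im
        linarith [hw'.2.2]
      have h1 : mob (h⁻¹ * g * h) w = w' := by
        rw [unf_mob_mul (h⁻¹ * g) h hwU, unf_mob_mul h⁻¹ g (unf_mem h hwU), ← he,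
          unf_inv_mob h hw'U]
      rw [h1]
      exact hw'
    set f : SL(2, ℤ) → ℤ × ℤ := fun g => ((h⁻¹ * g * h) 0 0, (h⁻¹ * g * h) 0 1) with hf
    set t : Finset (ℤ × ℤ) := ({1, -1} : Finset ℤ) ×ˢ ({-1, 0, 1} : Finset ℤ) with ht
    have hmaps : ∀ g ∈ S, f g ∈ (t : Set (ℤ × ℤ)) := by
      intro g hg
      have h1 := over_cusp hw (key g hg)
      obtain ⟨-, -, h2, h3, h4⟩ := h1
      simp only [ht, hf, Finset.coe_product, Set.mem_prod, Finset.mem_coe]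
      refine ⟨by simpa using h2, ?_⟩
      simp only [Finset.mem_insert, Finset.mem_singleton]
      omega
    have hinj : Set.InjOn f S := by
      intro g hg g' hg' he
      have h1 := over_cusp hw (key g hg)
      have h2 := over_cusp hw (key g' hg')
      simp only [hf, Prod.mk.injEq] at he
      have h3 : h⁻¹ * g * h = h⁻¹ * g' * h := by
        refine over_ext he.1 he.2 ?_ ?_
        · rw [h1.1, h2.1]
        · rw [h1.2.1, h2.2.1, he.1]
      have h4 := mul_right_cancel h3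
      exact mul_left_cancel h4
    refine ⟨Set.Finite.of_injOn hmaps hinj t.finite_toSet, ?_⟩
    have h1 := Set.ncard_le_ncard_of_injOn f hmaps hinj t.finite_toSet
    rw [Set.ncard_coe_finset] at h1
    have h2 : t.card = 6 := by
      rw [ht]
      decide
    omega

end Pool.Agent.Helper96.MP
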