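import Pool.Agent.Helper45.MP.UNFB

/-!
Unfolding.
-/

set_option autoImplicit false

namespace Pool.Agent.Helper96.MP

open Complex MeasureTheory Filter Topology
open scoped MatrixGroups

theorem unf_wsum {N : ℕ} {W : ℂ → ℝ} (hW : WOK N W) {z : ℂ} (hz : z ∈ UH) :
    HasSum (fun g : CongruenceSubgroup.Gamma0 N => W (mob (g.1)⁻¹ z)) 1 := by
  have h := hW.sum z hz
  rw [← (Equiv.inv (CongruenceSubgroup.Gamma0 N)).hasSum_iff] at h
  exact h

theorem unf_hasSum {N : ℕ} {W : ℂ → ℝ} (hW : WOK N W) (Φ : ℂ → ℝ) (hΦ : IntegrableOn Φ UH) :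
    HasSum (fun g : CongruenceSubgroup.Gamma0 N => ∫ w in UH, W (mob (g.1)⁻¹ w) * Φ w)
      (∫ w in UH, Φ w) := by
  have := unf_countable
  refine hasSum_integral_of_dominated_convergence
    (bound := fun (g : CongruenceSubgroup.Gamma0 N) w => W (mob (g.1)⁻¹ w) * |Φ w|) ?_ ?_ ?_ ?_ ?_
  · intro g
    exact (hW.meas.comp (unf_meas_mob _)).aestronglyMeasurable.mul hΦ.1
  · intro g
    refine Eventually.of_forall fun w => ?_
    rw [norm_mul, Real.norm_eq_abs, Real.norm_eq_abs, abs_of_nonneg (hW.nonneg _)]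
  · filter_upwards [ae_restrict_mem unf_measSet] with w hw
    exact ((unf_wsum hW hw).mul_right |Φ w|).summable
  · refine (Integrable.congr hΦ.norm ?_)
    filter_upwards [ae_restrict_mem unf_measSet] with w hw
    have := ((unf_wsum hW hw).mul_right |Φ w|).tsum_eq
    rw [this, one_mul, Real.norm_eq_abs]
  · filter_upwards [ae_restrict_mem unf_measSet] with w hw
    have := (unf_wsum hW hw).mul_right (Φ w)
    rwa [one_mul] at this

theorem unf_one {N : ℕ} {W : ℂ → ℝ} (hW : WOK N W) (g : SL(2, ℤ)) (Φ : ℂ → ℝ)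
    (hΦ : IntegrableOn Φ UH) :
    IntegrableOn (fun z => W z * (Φ (mob g z) * (‖jj g z‖ ^ 4)⁻¹)) UH ∧
    ∫ z in UH, W z * (Φ (mob g z) * (‖jj g z‖ ^ 4)⁻¹) = ∫ w in UH, W (mob g⁻¹ w) * Φ w := by
  have hG : IntegrableOn (fun w => W (mob g⁻¹ w) * Φ w) UH := by
    refine Integrable.mono hΦ ((hW.meas.comp (unf_meas_mob _)).aestronglyMeasurable.mul hΦ.1) ?_
    refine Eventually.of_forall fun w => ?_
    rw [norm_mul]
    refine mul_le_of_le_one_left (norm_nonneg _) ?_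
    rw [Real.norm_eq_abs, abs_of_nonneg (hW.nonneg _)]
    exact hW.le_one _
  have key : ∀ z ∈ UH, ((‖jj g z‖ ^ 4)⁻¹) • (W (mob g⁻¹ (mob g z)) * Φ (mob g z))
      = W z * (Φ (mob g z) * (‖jj g z‖ ^ 4)⁻¹) := by
    intro z hz
    rw [unf_inv_mob g hz, smul_eq_mul]
    ring
  constructor
  · have h := hG
    rw [← unf_image g] at h
    rw [unf_int_iff g unf_measSet subset_rfl] at h
    exact (integrableOn_congr_fun key unf_measSet).1 h
  · have h := unf_int g unf_measSet subset_rfl (fun w => W (mob g⁻¹ w) * Φ w)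
    rw [unf_image g] at h
    rw [h]
    exact (setIntegral_congr_fun unf_measSet key).symm

theorem st_UNF : ST_UNF := by
  intro N W Ψ _ hW hc hs _
  have := unf_countable
  have hΨ : IntegrableOn Ψ UH := (hc.integrable_of_hasCompactSupport hs).integrableOn
  have hΨn : IntegrableOn (fun w => ‖Ψ w‖) UH := hΨ.norm
  have heq : ∀ z, W z * ∑' g : CongruenceSubgroup.Gamma0 N, Ψ (mob g.1 z) * (‖jj g.1 z‖ ^ 4)⁻¹
      = ∑' g : CongruenceSubgroup.Gamma0 N, W z * (Ψ (mob g.1 z) * (‖jj g.1 z‖ ^ 4)⁻¹) :=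
    fun z => tsum_mul_left.symm
  simp only [heq]
  have h1 := unf_tsum (μ := volume.restrict UH)
    (fun (g : CongruenceSubgroup.Gamma0 N) z => W z * (Ψ (mob g.1 z) * (‖jj g.1 z‖ ^ 4)⁻¹))
    (fun g => (unf_one hW g.1 Ψ hΨ).1) ?_
  · refine ⟨h1.1, ?_⟩
    have h2 := unf_hasSum hW Ψ hΨ
    refine h1.2.unique ?_
    have : (fun g : CongruenceSubgroup.Gamma0 N => ∫ z in UH, W z * (Ψ (mob g.1 z) * (‖jj g.1 z‖ ^ 4)⁻¹))
        = (fun g : CongruenceSubgroup.Gamma0 N => ∫ w in UH, W (mob (g.1)⁻¹ w) * Ψ w) := by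
      funext g
      exact (unf_one hW g.1 Ψ hΨ).2
    rw [this]
    exact h2
  · have h2 := (unf_hasSum hW _ hΨn).summable
    refine h2.congr fun g => ?_
    rw [← (unf_one hW g.1 _ hΨn).2]
    refine integral_congr_ae (Eventually.of_forall fun z => ?_)
    simp only [norm_mul, norm_inv, norm_pow, norm_norm]
    rw [Real.norm_eq_abs (W z), abs_of_nonneg (hW.nonneg z)]

end Pool.Agent.Helper96.MP
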