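import Pool.Agent.Helper96.MP.Defs

/-!
Manin symbols from a potential.
-/

set_option autoImplicit false

namespace Pool.Agent.Helper96.MP

theorem vex_ex (hS : ST_SURJ) (N : ℕ) (hN : 1 ≤ N) (u : UP N) :
    ∃ p x q y : ℤ, p * y - x * q = 1 ∧ eqv N u.1.1 u.1.2 q y := by
  obtain ⟨c', d', hco, h1, h2⟩ := (hS N hN).1 u.1.1 u.1.2 u.2
  obtain ⟨a, b, hab⟩ := hco
  refine ⟨b, -a, c', d', by linarith, 1, isCoprime_one_left, ?_, ?_⟩
  · rwa [one_mul]
  · rwa [one_mul]

theorem vex_uni {N : ℕ} {p x q y : ℤ} (h : p * y - x * q = 1) : Uni N q y := by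
  unfold Uni
  have h1 : IsCoprime q y := ⟨-x, p, by linarith⟩
  have h2 : Int.gcd q y = 1 := Int.isCoprime_iff_gcd_eq_one.1 h1
  rw [h2]
  simp

theorem vex_eq {V : Type} [AddCommGroup V] {N : ℕ} {C : ℤ → ℤ → V} (hC : EqC N C)
    {p x q y p0 x0 q0 y0 : ℤ} (h : p * y - x * q = 1) (h0 : p0 * y0 - x0 * q0 = 1)
    (he : eqv N q0 y0 q y) : C p q - C x y = C p0 q0 - C x0 y0 := by
  obtain ⟨l, -, h1, h2⟩ := he
  have hg : G0 N (p * y0 - x * q0) (-p * x0 + x * p0) (q * y0 - y * q0) (-q * x0 + y * p0) := by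
    refine ⟨?_, ?_⟩
    · linear_combination (p * y - x * q) * h0 + h
    · have : q * y0 - y * q0 = (q - l * q0) * y0 - (y - l * y0) * q0 := by ring
      rw [this]
      exact dvd_sub (Dvd.dvd.mul_right h1 _) (Dvd.dvd.mul_right h2 _)
  have e1 := hC _ _ _ _ hg p0 q0 (by
    by_contra hne
    push Not at hne
    rw [hne.1, hne.2] at h0
    simp at h0)
  have e2 := hC _ _ _ _ hg x0 y0 (by
    by_contra hne
    push Not at hne
    rw [hne.1, hne.2] at h0
    simp at h0)
  have f1 : (p * y0 - x * q0) * p0 + (-p * x0 + x * p0) * q0 = p := by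
    linear_combination p * h0
  have f2 : (q * y0 - y * q0) * p0 + (-q * x0 + y * p0) * q0 = q := by
    linear_combination q * h0
  have f3 : (p * y0 - x * q0) * x0 + (-p * x0 + x * p0) * y0 = x := by
    linear_combination x * h0
  have f4 : (q * y0 - y * q0) * x0 + (-q * x0 + y * p0) * y0 = y := by
    linear_combination y * h0
  rw [f1, f2] at e1
  rw [f3, f4] at e2
  rw [e1, e2]
  abel

theorem st_VEX (hS : ST_SURJ) : ST_VEX := by
  intro V _ N hN C _ hE
  choose P X Q Y hdet heq using vex_ex hS N hN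
  refine ⟨fun c => C (P (Quotient.out c)) (Q (Quotient.out c))
    - C (X (Quotient.out c)) (Y (Quotient.out c)), ?_⟩
  intro p x q y h
  have hu : Uni N q y := vex_uni h
  unfold ev
  rw [dif_pos hu]
  set c : PN N := Quotient.mk (sPN N) ⟨(q, y), hu⟩ with hc
  have h1 : eqv N (Quotient.out c).1.1 (Quotient.out c).1.2 q y := by
    have h2 : (sPN N).r (Quotient.out c) ⟨(q, y), hu⟩ :=
      Quotient.exact (s := sPN N) (Quotient.out_eq c)
    exact h2
  have h3 : eqv N (Q (Quotient.out c)) (Y (Quotient.out c)) q y :=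
    eqv_trans (eqv_symm (heq (Quotient.out c))) h1
  exact (vex_eq hE h (hdet (Quotient.out c)) h3).symm

end Pool.Agent.Helper96.MP
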